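import Pool.Agent.H53.GM.Targets2

/-!
# Forbidden coloured patterns: the chains, from the families (row FAC)
-/

set_option autoImplicit false
set_option linter.unusedVariables false

namespace Pool.Agent.H75.GM

open Pool.Agent.H68.BP Pool.Agent.H58.SF Pool.Agent.H53.GC Pool.Agent.H53.GR
open Pool.Agent.H53.GM
open Classical

/-! ### Patterns -/

theorem pat_app {X Y : Type} (r : Fin 3) (x y : Y → X) (c : Fin 6) (e : Y) :
    pat r x y c e = pat r (x e) (y e) c := by
  fin_cases r <;> fin_cases c <;> rfl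

theorem pat_self {X : Type} (r : Fin 3) (t : X) : pat r t t = fun _ => t := by
  funext c
  fin_cases r <;> fin_cases c <;> rfl

theorem pat_cases {X : Type} (r : Fin 3) (x y : X) (c : Fin 6) :
    pat r x y c = x ∨ pat r x y c = y := by
  rw [pat_eq_ite]
  split_ifs
  · exact Or.inl rfl
  · exact Or.inr rfl

/-! ### Regions -/

/-- the region of the path `r` at the level `q` -/
def rgn (N : ℕ) (r : Fin 3) (q : ℕ) : Rg (N + 1) :=
  if q = 0 then none
  else if h : q - 1 < N + 1 then some (some (⟨q - 1, h⟩, r)) else some none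

theorem rgn_zero (N : ℕ) (r : Fin 3) : rgn N r 0 = none := by
  unfold rgn
  rw [if_pos rfl]

theorem rgn_top (N : ℕ) (r : Fin 3) : rgn N r (N + 2) = some none := by
  unfold rgn
  rw [if_neg (by omega), dif_neg (by omega)]

theorem lev_rgn (N : ℕ) (r : Fin 3) (q : ℕ) : lev (rgn N r q) = min q (N + 2) := by
  unfold rgn
  split_ifs with h1 h2
  · subst h1
    simp [lev]
  · simp only [lev]
    omega
  · simp only [lev]
    omega

theorem inR_rgn (N : ℕ) (r : Fin 3) (q : ℕ) : inR r (rgn N r q) := by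
  unfold rgn
  split_ifs with h1 h2
  · trivial
  · rfl
  · trivial

theorem adj_rgn (N : ℕ) (r : Fin 3) (q q' : ℕ) (h : q ≤ q' + 1) (h' : q' ≤ q + 1) :
    Adj (rgn N r q) (rgn N r q') := by
  refine ⟨?_, ?_, ?_⟩
  · rw [lev_rgn, lev_rgn]
    omega
  · rw [lev_rgn, lev_rgn]
    omega
  · intro x x' hx hx'
    have h1 := inR_rgn N r q
    have h2 := inR_rgn N r q'
    rw [hx] at h1
    rw [hx'] at h2
    change x.2 = r at h1
    change x'.2 = r at h2
    rw [h1, h2]

/-- the labelling number `j` of the path `r` -/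
def lbj (N k : ℕ) (r : Fin 3) (j : ℕ) (v : Fin k) : Rg (N + 1) :=
  rgn N r (j / k + if (v : ℕ) < j % k then 1 else 0)

theorem lbj_zero (N k : ℕ) (r : Fin 3) : lbj N k r 0 = fun _ => none := by
  funext v
  unfold lbj
  simp [rgn_zero]

theorem lbj_top (N k : ℕ) (hk : 1 ≤ k) (r : Fin 3) :
    lbj N k r ((N + 2) * k) = fun _ => some none := by
  funext v
  unfold lbj
  rw [Nat.mul_div_cancel _ (by omega), Nat.mul_mod_left]
  simp [rgn_top]

theorem lbj_succ (N k : ℕ) (r : Fin 3) (j : ℕ) (v : Fin k) (hv : (v : ℕ) ≠ j % k) :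
    lbj N k r j v = lbj N k r (j + 1) v := by
  have hk : 0 < k := lt_of_le_of_lt (Nat.zero_le _) v.2
  have hvk := v.2
  unfold lbj
  congr 1
  have hj := Nat.div_add_mod j k
  have hm := Nat.mod_lt j hk
  by_cases h : j % k + 1 = k
  · have h1 : (j + 1) / k = j / k + 1 := by
      have : j + 1 = k * (j / k + 1) := by
        rw [mul_add, mul_one]
        omega
      rw [this, Nat.mul_div_cancel_left _ hk]
    have h2 : (j + 1) % k = 0 := by
      have : j + 1 = k * (j / k + 1) := by
        rw [mul_add, mul_one]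
        omega
      rw [this, Nat.mul_mod_right]
    rw [h1, h2, if_pos (by omega), if_neg (by omega)]
  · have h3 : j + 1 = j % k + 1 + k * (j / k) := by omega
    have h1 : (j + 1) / k = j / k := by
      rw [h3, Nat.add_mul_div_left _ _ hk, Nat.div_eq_of_lt (by omega), zero_add]
    have h2 : (j + 1) % k = j % k + 1 := by
      rw [h3, Nat.add_mul_mod_self_left, Nat.mod_eq_of_lt (by omega)]
    rw [h1, h2]
    congr 1
    by_cases h4 : (v : ℕ) < j % k
    · rw [if_pos h4, if_pos (by omega)]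
    · rw [if_neg h4, if_neg (by omega)]

/-! ### Values -/

section values

variable {τ σ : Sig} {N k : ℕ} {F : Set (Str τ (Fin N))} {Al : Fin σ.m → Fin τ.m → Prop}
  {I : Finset (Fin k)}
  {νf : Ty τ N (Fin k) → Finset (Fin k × Rg (N + 1)) → Kd τ N k → Ty τ N (Fin k)}

theorem pts_congr {L : ℕ} {lb lb' : Fin k → Rg L} {s : Finset (Fin k)}
    (h : ∀ u ∈ s, lb u = lb' u) : pts lb s = pts lb' s := by
  unfold pts
  exact Finset.image_congr fun u hu => by rw [h u hu]

theorem kd_congr {L : ℕ} {lb lb' : Fin k → Rg L} {s : Finset (Fin k)} (a₀ : Ty τ N (Fin k))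
    (r : Fin 3) (w : Fin 6 → Ty τ N (Fin k)) (h : ∀ u ∈ s, lb u = lb' u) :
    kd I a₀ r lb w s = kd I a₀ r lb' w s := by
  unfold kd
  rw [pts_congr h]

theorem vl_congr {r : Fin 3} {lb lb' : Fin k → Rg (N + 1)} {e : So N k}
    (w : Fin 6 → Ty τ N (Fin k)) (h : ∀ u ∈ e.1 \ I, lb u = lb' u) :
    vl F I νf r lb e w = vl F I νf r lb' e w := by
  unfold vl
  rw [pts_congr h, kd_congr (rse I (w 0)) r w h]

theorem pts_nonempty {L : ℕ} {lb : Fin k → Rg L} {s : Finset (Fin k)} (hs : s.Nonempty) :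
    (pts lb s).Nonempty := by
  unfold pts
  exact hs.image _

theorem AZ_const {L : ℕ} {s : Finset (Fin k)} (hs : s.Nonempty) :
    AZ (pts (fun _ => (none : Rg L)) s) := by
  refine ⟨pts_nonempty hs, fun x hx => ?_⟩
  unfold pts at hx
  obtain ⟨v, -, rfl⟩ := Finset.mem_image.1 hx
  rfl

theorem AS_const {L : ℕ} {s : Finset (Fin k)} (hs : s.Nonempty) :
    AS (pts (fun _ => (some none : Rg L)) s) ∧ ¬ AZ (pts (fun _ => (some none : Rg L)) s) := by
  constructor
  · refine ⟨pts_nonempty hs, fun x hx => ?_⟩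
    unfold pts at hx
    obtain ⟨v, -, rfl⟩ := Finset.mem_image.1 hx
    rfl
  · intro h
    obtain ⟨x, hx⟩ := pts_nonempty (lb := fun _ => (some none : Rg L)) hs
    have h1 := h.2 x hx
    unfold pts at hx
    obtain ⟨v, -, rfl⟩ := Finset.mem_image.1 hx
    cases h1

theorem sdiff_ne {e : Finset (Fin k)} (h : I ⊂ e) : (e \ I).Nonempty := by
  rw [Finset.sdiff_nonempty]
  exact fun h' => h.2 h'

theorem kd_none {L : ℕ} (a₀ : Ty τ N (Fin k)) (r r' : Fin 3) (w : Fin 6 → Ty τ N (Fin k))
    {s : Finset (Fin k)} (hs : s.Nonempty) :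
    kd I a₀ r (fun _ => (none : Rg L)) w s = kd I a₀ r' (fun _ => (none : Rg L)) w s := by
  unfold kd rsG
  have h1 : pts (fun _ => (none : Rg L)) s ≠ ∅ := (pts_nonempty hs).ne_empty
  simp only [if_neg h1, if_pos (AZ_const (L := L) hs)]

theorem kd_some {L : ℕ} (a₀ : Ty τ N (Fin k)) (r r' : Fin 3) (w w' : Fin 6 → Ty τ N (Fin k))
    {s : Finset (Fin k)} (hs : s.Nonempty) (hw : ∀ d, w (ix r d) = w' (ix r' d)) :
    kd I a₀ r (fun _ => (some none : Rg L)) w s =
      kd I a₀ r' (fun _ => (some none : Rg L)) w' s := by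
  unfold kd rsG
  have h1 : pts (fun _ => (some none : Rg L)) s ≠ ∅ := (pts_nonempty hs).ne_empty
  simp only [if_neg h1, if_pos (AS_const (L := L) hs).1, if_neg (AS_const (L := L) hs).2, hw]

theorem vl_none (r r' : Fin 3) (e : So N k) (w : Fin 6 → Ty τ N (Fin k)) :
    vl F I νf r (fun _ => none) e w = vl F I νf r' (fun _ => none) e w := by
  unfold vl
  split_ifs with h
  · rw [kd_none (rse I (w 0)) r r' w (sdiff_ne h.1)]
  · rfl

/-- the types without roots -/
theorem rse_empty (hk : 1 ≤ k) {P P' : Ty τ N (Fin k)} (hP : Mx F P) (hP' : Mx F P') :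
    rse ∅ P ⊆ rse ∅ P' := by
  obtain ⟨W, hW, M, a, -, rfl⟩ := hP.1
  obtain ⟨W', hW', M', a', -, rfl⟩ := hP'.1
  rintro q ⟨⟨hq1, f, hf, hfr⟩, hq2⟩
  have hroot : ∀ v, q.2 v = none := by
    intro v
    by_contra hv
    obtain ⟨i, hi⟩ := Option.ne_none_iff_exists'.1 hv
    exact absurd (hq2 v i hi) (Finset.notMem_empty i)
  refine ⟨⟨hq1, fun _ => a' ⟨0, by omega⟩, ?_, ?_⟩, hq2⟩
  · intro l z hz
    exfalso
    obtain ⟨v, -, hv⟩ := hq1 Set.univ (fun _ _ _ _ _ => trivial) ⟨l, z, hz, fun _ => trivial⟩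
    exact hv (hroot v)
  · intro v i hi
    rw [hroot v] at hi
    cases hi

/-- the facts about valid pairs -/
theorem vt_pair (hk : 1 ≤ k) {p : Fin 2 → So N k → Ty τ N (Fin k)}
    (hp : VT (RR F Al k) none I p) {e : So N k} (he : I ⊂ e.1) :
    ∃ P : Fin 2 → Ty τ N (Fin k), (∀ i, Mx F (P i) ∧ rse e.1 (P i) = p i e) ∧
      ∀ i i', rse I (P i) = rse I (P i') := by
  have h1 : ∀ i, ∃ P, Mx F P ∧ ∀ e : So N k, p i e = rse e.1 P := fun i => hp.1 i
  choose P hP1 hP2 using h1
  refine ⟨P, fun i => ⟨hP1 i, (hP2 i e).symm⟩, ?_⟩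
  by_cases hI : I.Nonempty
  · have hcard : I.card ≤ N := (Finset.card_le_card he.1).trans e.2.2
    intro i i'
    have h2 := hp.2 ⟨I, hI, hcard⟩ (fun h => h.2 (Finset.Subset.refl _)) i i'
    rw [hP2, hP2] at h2
    exact h2
  · rw [Finset.not_nonempty_iff_eq_empty] at hI
    subst hI
    intro i i'
    exact Set.Subset.antisymm (rse_empty hk (hP1 i) (hP1 i')) (rse_empty hk (hP1 i') (hP1 i))

/-- the condition in `vl` holds for valid pairs -/
theorem vt_cond (hk : 1 ≤ k) {p : Fin 2 → So N k → Ty τ N (Fin k)}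
    (hp : VT (RR F Al k) none I p) {e : So N k} (he : I ⊂ e.1) (r : Fin 3) :
    I ⊂ e.1 ∧ ∃ q : Fin 6 → Ty τ N (Fin k),
      (∀ c, Mx F (q c) ∧ rse e.1 (q c) = pat r (p 0 e) (p 1 e) c) ∧
      ∀ c, rse I (q c) = rse I (q 0) := by
  obtain ⟨P, hP, hPI⟩ := vt_pair hk hp he
  refine ⟨he, pat r (P 0) (P 1), fun c => ?_, fun c => ?_⟩
  · rw [pat_eq_ite r (P 0), pat_eq_ite r (p 0 e)]
    split_ifs
    · exact hP 0
    · exact hP 1
  · have h1 : ∀ c, rse I (pat r (P 0) (P 1) c) = rse I (P 0) := by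
      intro c
      rcases pat_cases r (P 0) (P 1) c with h | h
      · rw [h]
      · rw [h]
        exact hPI 1 0
    rw [h1, h1]

/-- the restriction to `I` -/
theorem vt_rse (hk : 1 ≤ k) {p : Fin 2 → So N k → Ty τ N (Fin k)}
    (hp : VT (RR F Al k) none I p) {e : So N k} (he : I ⊂ e.1) (r : Fin 3) (c : Fin 6) :
    rse I (pat r (p 0 e) (p 1 e) c) = rse I (p 0 e) := by
  obtain ⟨P, hP, hPI⟩ := vt_pair hk hp he
  rcases pat_cases r (p 0 e) (p 1 e) c with h | h
  · rw [h]
  · rw [h, ← (hP 0).2, ← (hP 1).2, rse_rse he.1, rse_rse he.1]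
    exact hPI 1 0

/-- the values in the region `S` do not depend on the path -/
theorem vl_some (hk : 1 ≤ k) {p : Fin 2 → So N k → Ty τ N (Fin k)}
    (hp : VT (RR F Al k) none I p) (e : So N k) (r r' : Fin 3) :
    vl F I νf r (fun _ => some none) e (pat r (p 0 e) (p 1 e)) =
      vl F I νf r' (fun _ => some none) e (pat r' (p 0 e) (p 1 e)) := by
  by_cases he : I ⊂ e.1
  · unfold vl
    rw [if_pos (vt_cond hk hp he r), if_pos (vt_cond hk hp he r'), vt_rse hk hp he,
      vt_rse hk hp he]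
    congr 1
    refine kd_some _ _ _ _ _ (sdiff_ne he) fun d => ?_
    obtain ⟨h1, h2⟩ := pat_ix r (p 0 e) (p 1 e)
    obtain ⟨h3, h4⟩ := pat_ix r' (p 0 e) (p 1 e)
    fin_cases d
    · exact h1.trans h3.symm
    · exact h2.trans h4.symm
  · unfold vl
    rw [if_neg (fun h => he h.1), if_neg (fun h => he h.1)]
    have h0 : p 0 e = p 1 e := hp.2 e he 0 1
    rw [h0, pat_self, pat_self]

/-- families of two variables -/
theorem fm_pair {r : Fin 3} {lb : Fin k → Rg (N + 1)}
    (h : (∀ (l : Option (Σ l : Fin σ.m, (Fin (σ.ar l) → Fin k)))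
        (p : Fin 6 → So N k → Ty τ N (Fin k)), VT (RR F Al k) l I p →
        ((∀ v, v ∉ I → lb v = none) ∨ ∃ x y : So N k → Ty τ N (Fin k), p = pat r x y) →
        RR F Al k l (fun e => vl F I νf r lb e (fun c => p c e))) ∧
      ∀ (e : So N k) (t : Ty τ N (Fin k)), vl F I νf r lb e (fun _ => t) = t) :
    FmI (RR F Al k) I (Fin 2) (fun e w => vl F I νf r lb e (pat r (w 0) (w 1))) where
  fam := by
    intro l p hp
    have hv : VT (RR F Al k) l I (pat r (p 0) (p 1)) := by
      constructor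
      · intro c
        rcases pat_cases r (p 0) (p 1) c with h' | h'
        · rw [h']
          exact hp.1 0
        · rw [h']
          exact hp.1 1
      · intro e he c c'
        have h1 : ∀ c, pat r (p 0) (p 1) c e = p 0 e := by
          intro c
          rcases pat_cases r (p 0) (p 1) c with h' | h'
          · rw [h']
          · rw [h']
            exact hp.2 e he 1 0
        rw [h1, h1]
    have h2 := h.1 l (pat r (p 0) (p 1)) hv (Or.inr ⟨p 0, p 1, rfl⟩)
    have h3 : (fun e => vl F I νf r lb e (fun c => pat r (p 0) (p 1) c e)) =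
        fun e => vl F I νf r lb e (pat r (p 0 e) (p 1 e)) := by
      funext e
      congr 1
      funext c
      exact pat_app r (p 0) (p 1) c e
    rw [h3] at h2
    exact h2
  idem := by
    intro e t
    dsimp only
    rw [pat_self]
    exact h.2 e t

end values

theorem pf_FAC : Pool.Agent.H53.GM.T_FAC := by
  intro τ σ N F Al hHyp k hk I νf hfam
  have hH := hfam 0 (fun _ => none) (fun v _ => trivial)
    (fun v _ v' _ => ⟨by omega, by omega, fun q q' h => by cases h⟩)
  have hD := hfam 0 (fun _ => some none) (fun v _ => trivial)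
    (fun v _ v' _ => ⟨by omega, by omega, fun q q' h => by cases h⟩)
  refine ⟨fun e w => vl F I νf 0 (fun _ => none) e w,
    fun e w => vl F I νf 0 (fun _ => some none) e (pat 0 (w 0) (w 1)), ?_, fm_pair hD, ?_⟩
  · exact ⟨fun l p hp => hH.1 l p hp (Or.inl fun _ _ => rfl), hH.2⟩
  · intro r
    by_cases hI : ∃ v, v ∉ I
    · obtain ⟨v', hv'⟩ := hI
      refine ⟨(N + 2) * k, fun j e w => vl F I νf r (lbj N k r j) e (pat r (w 0) (w 1)),
        fun j => fm_pair (hfam r (lbj N k r j) (fun v _ => inR_rgn N r _)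
          fun v _ u _ => adj_rgn N r _ _ ?_ ?_), ?_, ?_, ?_⟩
      · split_ifs <;> omega
      · split_ifs <;> omega
      · intro e p hp
        dsimp only
        rw [lbj_zero]
        exact vl_none r 0 e _
      · intro e p hp
        dsimp only
        rw [lbj_top N k hk r]
        exact vl_some hk hp e r 0
      · intro j hj
        have hjk : j % k < k := Nat.mod_lt j (by omega)
        by_cases hv : (⟨j % k, hjk⟩ : Fin k) ∈ I
        · refine ⟨v', hv', fun e he p hp => vl_congr _ fun u hu => ?_⟩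
          refine lbj_succ N k r j u fun h => ?_
          have : u = ⟨j % k, hjk⟩ := Fin.ext h
          rw [this] at hu
          exact (Finset.mem_sdiff.1 hu).2 hv
        · refine ⟨⟨j % k, hjk⟩, hv, fun e he p hp => vl_congr _ fun u hu => ?_⟩
          refine lbj_succ N k r j u fun h => ?_
          have : u = ⟨j % k, hjk⟩ := Fin.ext h
          rw [this] at hu
          exact he (Finset.mem_sdiff.1 hu).1
    · push Not at hI
      refine ⟨0, fun _ e w => vl F I νf 0 (fun _ => none) e (pat r (w 0) (w 1)), ?_, ?_, ?_, ?_⟩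
      · intro j
        have h1 := fm_pair (hfam r (fun _ => none) (fun v _ => trivial)
          (fun v _ v' _ => ⟨by omega, by omega, fun q q' h => by cases h⟩))
        have h2 : (fun (e : So N k) (w : Fin 2 → Ty τ N (Fin k)) =>
            vl F I νf r (fun _ => none) e (pat r (w 0) (w 1))) =
            fun e w => vl F I νf 0 (fun _ => none) e (pat r (w 0) (w 1)) := by
          funext e w
          exact vl_none r 0 e _
        rw [h2] at h1
        exact h1
      · intro e p hp
        rfl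
      · intro e p hp
        have he : ¬ I ⊂ e.1 := fun h => h.2 fun u _ => hI u
        have h0 : p 0 e = p 1 e := hp.2 e he 0 1
        dsimp only
        rw [h0, pat_self, pat_self]
        unfold vl
        rw [if_neg (fun h => he h.1), if_neg (fun h => he h.1)]
      · intro j hj
        exact absurd hj (Nat.not_lt_zero j)

end Pool.Agent.H75.GM
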