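import Pool.Agent.H53.GM.Targets2

/-!
# Forbidden coloured patterns: the values of the labels (row CNE)
-/

set_option autoImplicit false
set_option linter.unusedVariables false

namespace Pool.Agent.H75.GM

open Pool.Agent.H68.BP Pool.Agent.H58.SF Pool.Agent.H53.GC Pool.Agent.H53.GR
open Pool.Agent.H53.GM
open Classical

section one

variable {τ σ : Sig} {N k L : ℕ} {F : Set (Str τ (Fin N))} {I : Finset (Fin k)}
  {a₀ : Ty τ N (Fin k)} {W : Type} {E : Sy (Fin k × Rg L) (Kd τ N k) W}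

/-- the guard of the copy of the configuration -/
noncomputable def gq (φ : CfI L F I a₀ × Fin k → W) (q : CfI L F I a₀) (e : Finset (Fin k)) :
    Finset W := (e.image (fun v => (q, v))).image φ

theorem mem_gq {φ : CfI L F I a₀ × Fin k → W} {q : CfI L F I a₀} {e : Finset (Fin k)} {w : W} :
    w ∈ gq φ q e ↔ ∃ v ∈ e, φ (q, v) = w := by
  unfold gq
  rw [Finset.image_image]
  simp

theorem cS_gd {q : CfI L F I a₀} {e : Finset (Fin k)} (he : Disjoint e I) (hc : e.card ≤ N) :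
    (cS L F I a₀).gd (e.image (fun v => (q, v))) (kd I a₀ q.1.1 q.1.2.1 q.1.2.2 e) :=
  ⟨q, e, he, hc, rfl, rfl⟩

theorem gq_gd {φ : CfI L F I a₀ × Fin k → W} (hφ : Hm (cS L F I a₀) E φ) {q : CfI L F I a₀}
    {e : Finset (Fin k)} (he : Disjoint e I) (hc : e.card ≤ N) :
    E.gd (gq φ q e) (kd I a₀ q.1.1 q.1.2.1 q.1.2.2 e) ∧
      ∀ v ∈ e, E.pt (φ (q, v)) = (v, q.1.2.1 v) := by
  obtain ⟨h1, h2⟩ := hφ _ _ (cS_gd (q := q) he hc)
  exact ⟨h1, fun v hv => h2 (q, v) (Finset.mem_image_of_mem (fun v => (q, v)) hv)⟩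

theorem gq_image {φ : CfI L F I a₀ × Fin k → W} {q : CfI L F I a₀} {e : Finset (Fin k)}
    (hp : ∀ v ∈ e, E.pt (φ (q, v)) = (v, q.1.2.1 v)) :
    (gq φ q e).image E.pt = pts q.1.2.1 e := by
  unfold gq pts
  rw [Finset.image_image, Finset.image_image]
  exact Finset.image_congr fun v hv => hp v hv

theorem gq_fst {φ : CfI L F I a₀ × Fin k → W} {q : CfI L F I a₀} {e : Finset (Fin k)}
    (hp : ∀ v ∈ e, E.pt (φ (q, v)) = (v, q.1.2.1 v)) :
    (gq φ q e).image (fun w => (E.pt w).1) = e := by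
  ext v
  rw [Finset.mem_image]
  constructor
  · rintro ⟨w, hw, rfl⟩
    obtain ⟨v', hv', rfl⟩ := mem_gq.1 hw
    rw [hp v' hv']
    exact hv'
  · intro hv
    exact ⟨φ (q, v), mem_gq.2 ⟨v, hv, rfl⟩, by rw [hp v hv]⟩

theorem gq_ag {φ : CfI L F I a₀ × Fin k → W} {q : CfI L F I a₀} {e : Finset (Fin k)}
    (hp : ∀ v ∈ e, E.pt (φ (q, v)) = (v, q.1.2.1 v)) :
    (∀ v ∈ e, ag E (gq φ q e) v = Sum.inl (φ (q, v))) ∧
      ∀ v, v ∉ e → ag E (gq φ q e) v = Sum.inr v := by
  constructor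
  · intro v hv
    have hex : ∃ x ∈ gq φ q e, (E.pt x).1 = v :=
      ⟨φ (q, v), mem_gq.2 ⟨v, hv, rfl⟩, by rw [hp v hv]⟩
    unfold ag
    rw [dif_pos hex]
    obtain ⟨h1, h2⟩ := hex.choose_spec
    obtain ⟨v', hv', hw⟩ := mem_gq.1 h1
    rw [← hw, hp v' hv'] at h2
    change v' = v at h2
    rw [← hw, h2]
  · intro v hv
    have hex : ¬ ∃ x ∈ gq φ q e, (E.pt x).1 = v := by
      rintro ⟨x, hx, hxv⟩
      obtain ⟨v', hv', rfl⟩ := mem_gq.1 hx
      rw [hp v' hv'] at hxv
      change v' = v at hxv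
      exact hv (hxv ▸ hv')
    unfold ag
    rw [dif_neg hex]

end one

theorem hasl_rse {τ σ : Sig} {N : ℕ} {J : Type} {Al : Fin σ.m → Fin τ.m → Prop} {l : Fin σ.m}
    {z : Fin (σ.ar l) → J} {t : Ty τ N J} {S : Finset J} (hz : ∀ i, z i ∈ S)
    (h : hasl Al l z t) : hasl Al l z (rse S t) := by
  obtain ⟨c, hc, har, hm⟩ := h
  refine ⟨c, hc, har, hm, ?_⟩
  intro v i hv
  unfold atm at hv
  dsimp only at hv
  split_ifs at hv with hlt
  have := Option.some.inj hv
  rw [← this]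
  exact hz _

theorem pf_CNE : Pool.Agent.H53.GM.T_CNE := by
  intro τ σ N k F Al A hHyp hk I a₀ ha₀ K hK1 hK2 W _ E f a h hE hRam hind hlbk hx
  choose x hx1 hx2 using hx
  -- the colouring
  obtain ⟨φ, ν, hφ, hν⟩ := hRam (fun G =>
    if hG : ∃ r : Fin 3, (∃ κ, E.gd G κ) ∧ ∀ x ∈ G, inR r (E.pt x).2 then
      rse (G.image (fun w => (E.pt w).1) ∪ I) (h (fun c v => ux E f a hG.choose c (ag E G v)))
    else ∅)
  refine ⟨ν, ?_⟩
  intro r lb p hq
  obtain ⟨q, hqd⟩ : ∃ q : CfI (N + 1) F I a₀, q.1 = (r, lb, p) := ⟨⟨(r, lb, p), hq⟩, rfl⟩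
  have hq1 : q.1.1 = r := by rw [hqd]
  have hq2 : q.1.2.1 = lb := by rw [hqd]
  have hq3 : q.1.2.2 = p := by rw [hqd]
  let al : Fin k → W ⊕ Fin k := fun v => if v ∈ I then Sum.inr v else Sum.inl (φ (q, v))
  have hbasic : ∀ e : Finset (Fin k), Disjoint e I → e.card ≤ N →
      E.gd (gq φ q e) (kd I a₀ r lb p e) ∧ (∀ v ∈ e, E.pt (φ (q, v)) = (v, q.1.2.1 v)) := by
    intro e he hc
    have := gq_gd hφ (q := q) he hc
    rw [hq1, hq3] at this
    refine ⟨?_, this.2⟩
    rw [hq2] at this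
    exact this.1
  have hreg : ∀ e : Finset (Fin k), Disjoint e I → e.card ≤ N →
      ∀ x ∈ gq φ q e, inR r (E.pt x).2 := by
    intro e he hc x hx
    obtain ⟨v, hv, rfl⟩ := mem_gq.1 hx
    rw [(hbasic e he hc).2 v hv, hq2]
    exact hq.reg v (Finset.disjoint_left.1 he hv)
  have hal : ∀ e : Finset (Fin k), Disjoint e I → e.card ≤ N →
      ∀ v ∈ e ∪ I, ag E (gq φ q e) v = al v := by
    intro e he hc v hv
    have hp := (hbasic e he hc).2
    by_cases hvI : v ∈ I
    · rw [(gq_ag hp).2 v (fun h' => Finset.disjoint_left.1 he h' hvI)]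
      simp only [al, if_pos hvI]
    · have hve : v ∈ e := by
        rcases Finset.mem_union.1 hv with h' | h'
        · exact h'
        · exact absurd h' hvI
      rw [(gq_ag hp).1 v hve]
      simp only [al, if_neg hvI]
  -- the key property
  have hkey : ∀ e : Finset (Fin k), Disjoint e I → e.card ≤ N → ∀ α : Fin k → W ⊕ Fin k,
      α = al → (∀ (S : Finset (Fin k)) (P : Ty τ N (Fin k)),
            S ⊆ e ∪ I → Mx F P →
            (∀ c, rse S (rse (e ∪ I) (p c)) = rse S P) →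
              rse S (K (fun v => x r (α v))) = rse S P) ∧
          ∀ (l : Fin σ.m) (z : Fin (σ.ar l) → Fin k),
            (∀ i, z i ∈ e ∪ I) →
            (∀ c, hasl Al l z (rse (e ∪ I) (p c))) → hasl Al l z (K (fun v => x r (α v))) := by
    intro e he hc α hα
    subst hα
    obtain ⟨hg, hp⟩ := hbasic e he hc
    have h1 := hx2 r (gq φ q e) (fun c => labK (pts lb e) (kd I a₀ r lb p e) r c) ?_ ?_ al ?_ ?_
    · rw [gq_fst hp] at h1
      have h2 : ∀ c, labK (pts lb e) (kd I a₀ r lb p e) r c = rse (e ∪ I) (p c) :=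
        hlbk r lb p hq e he
      simp only [h2] at h1
      exact h1
    · intro w hw w' hw' hww
      obtain ⟨v, hv, rfl⟩ := mem_gq.1 (Finset.mem_coe.1 hw)
      obtain ⟨v', hv', rfl⟩ := mem_gq.1 (Finset.mem_coe.1 hw')
      dsimp only at hww
      rw [hp v hv, hp v' hv'] at hww
      change v = v' at hww
      rw [hww]
    · intro c
      refine ⟨gq φ q e, kd I a₀ r lb p e, r, c, hg, hreg e he hc, rfl, ?_⟩
      rw [gq_image hp, hq2]
    · intro w hw
      obtain ⟨v, hv, rfl⟩ := mem_gq.1 hw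
      rw [hp v hv]
      have hvI : v ∉ I := Finset.disjoint_left.1 he hv
      simp only [al, if_neg hvI]
    · intro v hv
      simp only [al, if_pos hv]
  refine ⟨K (fun v => x r (al v)), hK1 _, ?_, ?_, ?_⟩
  · -- (A)
    intro e he hc
    obtain ⟨hg, hp⟩ := hbasic e he hc
    have hcg := cS_gd (q := q) he hc
    rw [hq1, hq2, hq3] at hcg
    have h1 := hν _ _ hcg
    have h2 : ∀ inst : DecidableEq (Fin k × Rg (N + 1)),
        @Finset.image _ _ inst (cS (N + 1) F I a₀).pt (e.image (fun v => (q, v))) =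
          pts lb e := by
      intro inst
      ext y
      unfold pts
      simp only [Finset.mem_image]
      constructor
      · rintro ⟨w, ⟨v, hv, rfl⟩, rfl⟩
        refine ⟨v, hv, ?_⟩
        change (v, lb v) = (v, q.1.2.1 v)
        rw [hq2]
      · rintro ⟨v, hv, rfl⟩
        refine ⟨(q, v), ⟨v, hv, rfl⟩, ?_⟩
        change (v, q.1.2.1 v) = (v, lb v)
        rw [hq2]
    rw [h2] at h1
    rw [← h1]
    change _ = dite _ _ _
    have hG : ∃ r : Fin 3, (∃ κ, E.gd (gq φ q e) κ) ∧ ∀ x ∈ gq φ q e, inR r (E.pt x).2 :=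
      ⟨r, ⟨_, hg⟩, hreg e he hc⟩
    have hG' : ∃ r : Fin 3, (∃ κ, E.gd ((e.image (fun v => (q, v))).image φ) κ) ∧
      ∀ x ∈ (e.image (fun v => (q, v))).image φ, inR r (E.pt x).2 := hG
    rw [dif_pos hG']
    have h3 : ((e.image (fun v => (q, v))).image φ).image (fun w => (E.pt w).1) = e := gq_fst hp
    rw [h3]
    have h4 : h (fun c v => ux E f a hG'.choose c (ag E (gq φ q e) v)) =
        h (fun c v => ux E f a r c (ag E (gq φ q e) v)) :=
      hind _ _ hg _ _ hG'.choose_spec.2 (hreg e he hc)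
    have h5 : h (fun c v => ux E f a r c (ag E (gq φ q e) v)) =
        K (fun v => x r (ag E (gq φ q e) v)) := (hx1 r _).symm
    refine Eq.trans ?_ (congrArg (rse (e ∪ I)) (h4.trans h5)).symm
    refine hK2 _ _ _ fun v hv => ?_
    rw [hal e he hc v hv]
  · -- (B)
    intro S P' hS hP' hSp
    have he : Disjoint (S \ I) I := Finset.sdiff_disjoint
    have hc : (S \ I).card ≤ N := (Finset.card_le_card Finset.sdiff_subset).trans hS
    have hsub : S ⊆ S \ I ∪ I := by
      intro v hv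
      rw [Finset.sdiff_union_self_eq_union]
      exact Finset.mem_union_left _ hv
    refine (hkey (S \ I) he hc al rfl).1 S P' hsub hP' fun c => ?_
    rw [rse_rse hsub]
    exact hSp c
  · -- (C)
    intro l z hz
    obtain ⟨c, hc, har, -⟩ := hz 0
    have hcard : (Finset.univ.image z \ I).card ≤ N := by
      calc (Finset.univ.image z \ I).card ≤ (Finset.univ.image z).card :=
            Finset.card_le_card Finset.sdiff_subset
        _ ≤ (Finset.univ : Finset (Fin (σ.ar l))).card := Finset.card_image_le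
        _ = σ.ar l := by simp
        _ = τ.ar c := har.symm
        _ ≤ N := (hHyp.ar c).2
    have hmem : ∀ i, z i ∈ Finset.univ.image z \ I ∪ I := by
      intro i
      rw [Finset.sdiff_union_self_eq_union]
      exact Finset.mem_union_left _ (Finset.mem_image_of_mem z (Finset.mem_univ i))
    exact (hkey (Finset.univ.image z \ I) Finset.sdiff_disjoint hcard al rfl).2 l z hmem
      fun c => hasl_rse hmem (hz c)

end Pool.Agent.H75.GM
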